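import Pool.Agent.Y892.UF.W8
import Pool.Agent.Y892.UF.G2

/-!
# 100% of the radicands that can have unique factorisation

By genus theory the ring of integers of `ℚ(√d)`, `d > 1` squarefree, can have unique factorisation only
if `d` is a prime, or twice a prime `≡ 3 mod 4`, or a product of two primes `≡ 3 mod 4`.  These
candidates have density zero among all integers, and the primes have density zero among them.

For every `a > 2` and `ε > 0`, the following holds for 100% of the candidates `d`, for 100% of the
products `d = p q` of two primes `≡ 3 mod 4`, and for 100% of the numbers `d = 2 p`, `p ≡ 3 mod 4` prime;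
`K` is the field of the square root of `d`.

* For suitable `y` and `k` with `2 y ≤ (log d)^a` and `2 k ≤ log d / log log d`, the ideals of `K` whose
  norm is a product of `k` distinct primes of `(y, 2y]` are equidistributed in the ideal class group of
  `K`, in mean square, up to the relative error `ε`.
* Every ideal class is a product of at most `log d / log log d` classes of prime ideals of norm at most
  `(log d)^a`.
* The ring of integers of `K` is a unique factorisation domain if and only if all its prime ideals of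
  norm at most `(log d)^a` are principal.
-/

set_option autoImplicit false

namespace Pool.Agent.Results.MP_321647_nt.CandidateRadicands

open Filter Finset NumberField
open scoped Classical

/-- The number of the ideals of the ring of integers of `K` that have the class `C` and whose norm is a
product of `k` distinct primes of the interval `(y, 2y]`. -/
noncomputable def cnt (K : Type) [Field K] [NumberField K] (y k : ℕ) (C : ClassGroup (𝓞 K)) : ℕ :=
  ∑ s ∈ ((Finset.Ioc y (2 * y)).filter Nat.Prime).powersetCard k,
    Nat.card {I : nonZeroDivisors (Ideal (𝓞 K)) //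
      Ideal.absNorm (I : Ideal (𝓞 K)) = ∏ p ∈ s, p ∧ ClassGroup.mk0 I = C}

/-- There are such ideals, and the mean square deviation of their distribution among the `h` ideal
classes from the uniform distribution is at most `ε (1 / h) ^ 2`. -/
def Equidistributed (K : Type) [Field K] [NumberField K] (y k : ℕ) (ε : ℝ) : Prop :=
  0 < ∑ C : ClassGroup (𝓞 K), cnt K y k C ∧
  (∑ C : ClassGroup (𝓞 K), ((cnt K y k C : ℝ) / ((∑ C' : ClassGroup (𝓞 K), cnt K y k C' : ℕ) : ℝ) -
    1 / Nat.card (ClassGroup (𝓞 K))) ^ 2) / Nat.card (ClassGroup (𝓞 K)) ≤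
      ε * (1 / Nat.card (ClassGroup (𝓞 K))) ^ 2

/-- Every ideal class is a product of at most `n` classes of prime ideals of norm at most `B`. -/
def ShortProducts (K : Type) [Field K] [NumberField K] (B n : ℝ) : Prop :=
  ∀ C : ClassGroup (𝓞 K), ∃ L : Multiset (nonZeroDivisors (Ideal (𝓞 K))),
    (∀ P ∈ L, (P : Ideal (𝓞 K)).IsPrime ∧ (Ideal.absNorm (P : Ideal (𝓞 K)) : ℝ) ≤ B) ∧
    (L.card : ℝ) ≤ n ∧ (L.map (fun P => ClassGroup.mk0 P)).prod = C

/-- The ring of integers of `K` has unique factorisation if and only if its prime ideals of norm at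
most `B` are principal. -/
def DecidedBelow (K : Type) [Field K] [NumberField K] (B : ℝ) : Prop :=
  UniqueFactorizationMonoid (𝓞 K) ↔
    ∀ P : Ideal (𝓞 K), P.IsPrime → (Ideal.absNorm P : ℝ) ≤ B → P.IsPrincipal

/-- The property of the integer `d` in the theorem: all three statements hold for every quadratic
field containing a square root of `d`. -/
def Good (a ε : ℝ) (d : ℕ) : Prop :=
  ∀ (K : Type) [Field K] [NumberField K], Module.finrank ℚ K = 2 →
    (∃ x : K, x ^ 2 = (d : K)) →
    (∃ y k : ℕ, 2 * (y : ℝ) ≤ (Real.log d) ^ a ∧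
      2 * (k : ℝ) ≤ Real.log d / Real.log (Real.log d) ∧ Equidistributed K y k ε) ∧
    ShortProducts K ((Real.log d) ^ a) (Real.log d / Real.log (Real.log d)) ∧
    DecidedBelow K ((Real.log d) ^ a)

/-- `d = 2 p` with a prime `p ≡ 3 mod 4`. -/
def TwicePrime (d : ℕ) : Prop := ∃ p : ℕ, p.Prime ∧ p % 4 = 3 ∧ d = 2 * p

/-- `d = p q` with two different primes `p ≡ q ≡ 3 mod 4`. -/
def PrimePair (d : ℕ) : Prop :=
  ∃ p q : ℕ, p.Prime ∧ q.Prime ∧ p < q ∧ p % 4 = 3 ∧ q % 4 = 3 ∧ d = p * q

/-- The radicands that can have unique factorisation. -/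
def Candidate (d : ℕ) : Prop := d.Prime ∨ TwicePrime d ∨ PrimePair d

/-- The proportion of the numbers up to `X` with the property `F` that do not have the property `G`
tends to zero as `X` tends to infinity. -/
def AlmostAll (F G : ℕ → Prop) : Prop :=
  Tendsto (fun X : ℕ => (((Finset.Icc 1 X).filter (fun d => F d ∧ ¬ G d)).card : ℝ) /
    (((Finset.Icc 1 X).filter F).card : ℝ)) atTop (nhds 0)

/-- If all ideal classes are products of classes of prime ideals of norm at most `B`, then unique
factorisation is decided by the prime ideals of norm at most `B`. -/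
theorem decided (K : Type) [Field K] [NumberField K] (B n : ℝ) (h : ShortProducts K B n) :
    DecidedBelow K B := by
  constructor
  · intro hU P _ _
    have := hU
    have : IsPrincipalIdealRing (𝓞 K) :=
      IsPrincipalIdealRing.of_isDedekindDomain_of_uniqueFactorizationMonoid (𝓞 K)
    exact IsPrincipalIdealRing.principal P
  · intro hP
    have htriv : ∀ C : ClassGroup (𝓞 K), C = 1 := by
      intro C
      obtain ⟨L, hL, _, hprod⟩ := h C
      rw [← hprod]
      apply Multiset.prod_eq_one
      intro c hc
      obtain ⟨P, hPL, rfl⟩ := Multiset.mem_map.1 hc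
      rw [ClassGroup.mk0_eq_one_iff]
      exact hP _ (hL P hPL).1 (hL P hPL).2
    have hcard : Fintype.card (ClassGroup (𝓞 K)) = 1 := by
      rw [Fintype.card_eq_one_iff]
      exact ⟨1, htriv⟩
    have : IsPrincipalIdealRing (𝓞 K) := by
      rw [← card_classGroup_eq_one_iff]
      exact hcard
    infer_instance

theorem good_iff (a ε : ℝ) (d : ℕ) : Pool.Agent.H38R2.CG3.GoodE a ε d ↔ Good a ε d := by
  constructor
  · intro h3 K _ _ hK hx
    obtain ⟨h4, h5⟩ := h3 K hK hx
    exact ⟨h4, h5, decided K _ _ h5⟩
  · intro h3 K _ _ hK hx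
    exact ⟨(h3 K hK hx).1, (h3 K hK hx).2.1⟩

theorem almost (F : ℕ → Prop) (a ε : ℝ)
    (h : Tendsto (fun X : ℕ => (((Finset.Ioc 0 X).filter
      (fun D => F D ∧ ¬ Pool.Agent.H38R2.CG3.GoodE a ε D)).card : ℝ) /
      (((Finset.Ioc 0 X).filter F).card : ℝ)) atTop (nhds 0)) : AlmostAll F (Good a ε) := by
  unfold AlmostAll
  refine h.congr (fun X => ?_)
  have e1 : Finset.Ioc 0 X = Finset.Icc 1 X := by
    ext d
    rw [mem_Ioc, mem_Icc]
    omega
  have e2 : (Finset.Ioc 0 X).filter (fun D => F D ∧ ¬ Pool.Agent.H38R2.CG3.GoodE a ε D) =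
      (Finset.Ioc 0 X).filter (fun d => F d ∧ ¬ Good a ε d) := by
    apply filter_congr
    intro d _
    rw [good_iff]
  rw [e2, e1]

theorem result :
    (∀ d : ℕ, 1 < d → Squarefree d → ∀ (K : Type) [Field K] [NumberField K],
      Module.finrank ℚ K = 2 → (∃ x : K, x ^ 2 = (d : K)) →
        UniqueFactorizationMonoid (𝓞 K) → Candidate d) ∧
    ∀ a ε : ℝ, 2 < a → 0 < ε →
      AlmostAll Candidate (Good a ε) ∧ AlmostAll PrimePair (Good a ε) ∧
        AlmostAll TwicePrime (Good a ε) := by
  refine ⟨fun d hd1 hds K _ _ hK hx hU =>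
    Pool.Agent.Y892.UF.cand_of_ufd K d hd1 hds hK hx hU, fun a ε ha hε => ⟨?_, ?_, ?_⟩⟩
  · apply almost
    have key := Pool.Agent.Y892.UF.union_lim Nat.Prime Pool.Agent.Y892.UF.Two
      Pool.Agent.Y892.UF.Semi (fun D => ¬ Pool.Agent.H38R2.CG3.GoodE a ε D)
      (by convert Pool.Agent.Y892.UF.prime_lim a ε ha hε)
      (by convert Pool.Agent.Y892.UF.two_lim a ε ha hε)
      (by convert Pool.Agent.Y892.UF.semi_lim a ε ha hε)
    convert key
    all_goals rfl
  · apply almost
    exact Pool.Agent.Y892.UF.semi_lim a ε ha hε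
  · apply almost
    exact Pool.Agent.Y892.UF.two_lim a ε ha hε

end Pool.Agent.Results.MP_321647_nt.CandidateRadicands
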