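import Pool.Agent.Y854.GM.Sets
import Pool.Agent.Y854.GM.SetsLog
import Pool.Agent.H38R2.CG3.All

/-!
# Real quadratic fields with radicand in a sparse sequence

Let `c > 1` be any real number (for example `c = 100`). For all `α > 0` outside a set of Hausdorff dimension
less than one, a positive proportion of `N / log N` of the integers `⌊α n ^ c⌋`, `n ≤ N`, are primes, and for
100% of these primes `p` (and also for 100% of the squarefree integers of the form `⌊α n ^ c⌋`), for every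
`a > 2` and `ε > 0`, with `K` the real quadratic field of the square root of `p`:

* for suitable `y` and `k` with `2 y ≤ (log p)^a` and `2 k ≤ log p / log log p` the ideals of `K` whose norm is
  a product of `k` distinct primes of `(y, 2y]` are equidistributed in the ideal class group of `K`;
* every ideal class is a product of at most `log p / log log p` classes of prime ideals of norm `≤ (log p)^a`;
* the ring of integers of `K` is a unique factorisation domain if and only if all its prime ideals of norm at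
  most `(log p)^a` are principal.
-/

set_option autoImplicit false

namespace Pool.Agent.Results.MP_321647_nt.SparseRadicands

open Filter Finset NumberField Topology
open scoped Classical

/-- The number of the ideals of the ring of integers of `K` that have the class `C` and whose norm is a
product of `k` distinct primes of the interval `(y, 2y]`. -/
noncomputable def cnt (K : Type) [Field K] [NumberField K] (y k : ℕ) (C : ClassGroup (𝓞 K)) : ℕ :=
  ∑ s ∈ ((Finset.Ioc y (2 * y)).filter Nat.Prime).powersetCard k,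
    Nat.card {I : nonZeroDivisors (Ideal (𝓞 K)) //
      Ideal.absNorm (I : Ideal (𝓞 K)) = ∏ p ∈ s, p ∧ ClassGroup.mk0 I = C}

/-- There are such ideals, and the mean square deviation of their distribution among the `h` ideal
classes from the uniform distribution is at most `ε (1 / h) ^ 2`. -/
def Equidistributed (K : Type) [Field K] [NumberField K] (y k : ℕ) (ε : ℝ) : Prop :=
  0 < ∑ C : ClassGroup (𝓞 K), cnt K y k C ∧
  (∑ C : ClassGroup (𝓞 K), ((cnt K y k C : ℝ) / ((∑ C' : ClassGroup (𝓞 K), cnt K y k C' : ℕ) : ℝ) -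
    1 / Nat.card (ClassGroup (𝓞 K))) ^ 2) / Nat.card (ClassGroup (𝓞 K)) ≤
      ε * (1 / Nat.card (ClassGroup (𝓞 K))) ^ 2

/-- Every ideal class is a product of at most `n` classes of prime ideals of norm at most `B`. -/
def ShortProducts (K : Type) [Field K] [NumberField K] (B n : ℝ) : Prop :=
  ∀ C : ClassGroup (𝓞 K), ∃ L : Multiset (nonZeroDivisors (Ideal (𝓞 K))),
    (∀ P ∈ L, (P : Ideal (𝓞 K)).IsPrime ∧ (Ideal.absNorm (P : Ideal (𝓞 K)) : ℝ) ≤ B) ∧
    (L.card : ℝ) ≤ n ∧ (L.map (fun P => ClassGroup.mk0 P)).prod = C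

/-- The ring of integers of `K` has unique factorisation if and only if its prime ideals of norm at
most `B` are principal. -/
def DecidedBelow (K : Type) [Field K] [NumberField K] (B : ℝ) : Prop :=
  UniqueFactorizationMonoid (𝓞 K) ↔
    ∀ P : Ideal (𝓞 K), P.IsPrime → (Ideal.absNorm P : ℝ) ≤ B → P.IsPrincipal

/-- The property of the integer `d` in the theorem: all three statements hold for every quadratic
field containing a square root of `d`. -/
def Good (a ε : ℝ) (d : ℕ) : Prop :=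
  ∀ (K : Type) [Field K] [NumberField K], Module.finrank ℚ K = 2 →
    (∃ x : K, x ^ 2 = (d : K)) →
    (∃ y k : ℕ, 2 * (y : ℝ) ≤ (Real.log d) ^ a ∧
      2 * (k : ℝ) ≤ Real.log d / Real.log (Real.log d) ∧ Equidistributed K y k ε) ∧
    ShortProducts K ((Real.log d) ^ a) (Real.log d / Real.log (Real.log d)) ∧
    DecidedBelow K ((Real.log d) ^ a)

/-- If all ideal classes are products of classes of prime ideals of norm at most `B`, then unique
factorisation is decided by the prime ideals of norm at most `B`. -/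
theorem decided (K : Type) [Field K] [NumberField K] (B n : ℝ) (h : ShortProducts K B n) :
    DecidedBelow K B := by
  constructor
  · intro hU P _ _
    haveI := hU
    haveI : IsPrincipalIdealRing (𝓞 K) := IsPrincipalIdealRing.of_isDedekindDomain_of_uniqueFactorizationMonoid (𝓞 K)
    exact IsPrincipalIdealRing.principal P
  · intro hP
    have htriv : ∀ C : ClassGroup (𝓞 K), C = 1 := by
      intro C
      obtain ⟨L, hL, _, hprod⟩ := h C
      rw [← hprod]
      apply Multiset.prod_eq_one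
      intro c hc
      obtain ⟨P, hPL, rfl⟩ := Multiset.mem_map.1 hc
      rw [ClassGroup.mk0_eq_one_iff]
      exact hP _ (hL P hPL).1 (hL P hPL).2
    have hcard : Fintype.card (ClassGroup (𝓞 K)) = 1 := by
      rw [Fintype.card_eq_one_iff]
      exact ⟨1, htriv⟩
    haveI : IsPrincipalIdealRing (𝓞 K) := by
      rw [← card_classGroup_eq_one_iff]
      exact hcard
    infer_instance

/-- the property of the library, with smaller parameters, gives `Good` -/
theorem good_of {a a' ε ε' : ℝ} (ha : a' ≤ a) (hε : ε' ≤ ε) {d : ℕ} (hd : 3 ≤ d)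
    (h : Pool.Agent.H38R2.CG3.GoodE a' ε' d) : Good a ε d := by
  have hl := Pool.Agent.Y854.GM.one_le_log3 hd
  have hB : (Real.log d) ^ a' ≤ (Real.log d) ^ a := Real.rpow_le_rpow_of_exponent_le hl ha
  intro K _ _ hK hx
  obtain ⟨⟨y, k, h1, h2, h3, h4⟩, h5⟩ := h K hK hx
  have h6 : ShortProducts K ((Real.log d) ^ a) (Real.log d / Real.log (Real.log d)) := by
    intro C
    obtain ⟨L, hL, h7, h8⟩ := h5 C
    exact ⟨L, fun P hP => ⟨(hL P hP).1, (hL P hP).2.trans hB⟩, h7, h8⟩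
  refine ⟨⟨y, k, h1.trans hB, h2, h3, h4.trans ?_⟩, h6, decided K _ _ h6⟩
  exact mul_le_mul_of_nonneg_right hε (by positivity)

lemma ratio_tendsto (A B : ℕ → ℝ) (hA : ∀ N, 0 ≤ A N) {κ : ℝ} (hκ : 0 < κ)
    (hB : ∃ N1 : ℕ, ∀ N : ℕ, N1 ≤ N → κ * N / Real.log N ≤ B N)
    (h : ∀ η : ℝ, 0 < η → ∃ N0 : ℕ, ∀ N : ℕ, N0 ≤ N → A N ≤ η * N / Real.log N) :
    Tendsto (fun N => A N / B N) atTop (𝓝 0) := by
  rw [Metric.tendsto_atTop]
  intro ε hε
  obtain ⟨N1, hN1⟩ := hB
  obtain ⟨N0, hN0⟩ := h (ε / 2 * κ) (by positivity)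
  refine ⟨max (max N0 N1) 3, fun N hN => ?_⟩
  have h1 := hN0 N (((le_max_left _ _).trans (le_max_left _ _)).trans hN)
  have h2 := hN1 N (((le_max_right _ _).trans (le_max_left _ _)).trans hN)
  have h3 : 3 ≤ N := (le_max_right _ _).trans hN
  have hl := Pool.Agent.Y854.GM.one_le_log3 h3
  have hNp : (0 : ℝ) < N := by
    have : 0 < N := by omega
    exact_mod_cast this
  have hBp : 0 < B N := lt_of_lt_of_le (by positivity) h2
  rw [Real.dist_eq, sub_zero, abs_of_nonneg (div_nonneg (hA N) hBp.le), div_lt_iff₀ hBp]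
  have h4 : ε / 2 * κ * N / Real.log N = ε / 2 * (κ * N / Real.log N) := by ring
  rw [h4] at h1
  have h5 := mul_le_mul_of_nonneg_left h2 (show 0 ≤ ε / 2 by positivity)
  have h6 : 0 < ε * B N := by positivity
  linarith

lemma lin_tendsto (A : ℕ → ℝ) (hA : ∀ N, 0 ≤ A N)
    (h : ∀ η : ℝ, 0 < η → ∃ N0 : ℕ, ∀ N : ℕ, N0 ≤ N → A N ≤ η * N) :
    Tendsto (fun N : ℕ => A N / N) atTop (𝓝 0) := by
  rw [Metric.tendsto_atTop]
  intro ε hε
  obtain ⟨N0, hN0⟩ := h (ε / 2) (by positivity)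
  refine ⟨max N0 1, fun N hN => ?_⟩
  have h1 := hN0 N ((le_max_left _ _).trans hN)
  have hNp : (0 : ℝ) < N := by
    have : 0 < N := lt_of_lt_of_le one_pos ((le_max_right _ _).trans hN)
    exact_mod_cast this
  rw [Real.dist_eq, sub_zero, abs_of_nonneg (div_nonneg (hA N) hNp.le), div_lt_iff₀ hNp]
  have h6 : 0 < ε * (N : ℝ) := by positivity
  linarith

/-- the parameters of the countable family -/
noncomputable def aa (j : ℕ) : ℝ := 2 + 1 / ((j : ℝ) + 1)

/-- the parameters of the countable family -/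
noncomputable def ee (j : ℕ) : ℝ := 1 / ((j : ℝ) + 1)

lemma params {a ε : ℝ} (ha : 2 < a) (hε : 0 < ε) : ∃ j : ℕ, aa j ≤ a ∧ ee j ≤ ε := by
  obtain ⟨j, hj⟩ := exists_nat_ge (1 / min (a - 2) ε)
  have hm : 0 < min (a - 2) ε := lt_min (by linarith) hε
  have h1 : 1 / ((j : ℝ) + 1) ≤ min (a - 2) ε := by
    rw [div_le_iff₀ (by positivity)]
    rw [div_le_iff₀ hm] at hj
    nlinarith
  refine ⟨j, ?_, h1.trans (min_le_right _ _)⟩
  have := h1.trans (min_le_left _ _)
  unfold aa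
  linarith

/-- the bad primes -/
def PB (j : ℕ) : Set ℕ := {p | p.Prime ∧ (p < 3 ∨ ¬ Pool.Agent.H38R2.CG3.GoodE (aa j) (ee j) p)}

/-- the bad squarefree integers -/
def QB (j : ℕ) : Set ℕ := {d | Squarefree d ∧ (d < 3 ∨ ¬ Pool.Agent.H38R2.CG3.GoodE (aa j) (ee j) d)}

lemma aa_gt (j : ℕ) : 2 < aa j := by
  have : 0 < 1 / ((j : ℝ) + 1) := by positivity
  unfold aa; linarith

lemma ee_pos (j : ℕ) : 0 < ee j := by unfold ee; positivity

lemma PB_up (j : ℕ) (δ : ℝ) (hδ : 0 < δ) : ∃ X0 : ℕ, ∀ X : ℕ, X0 ≤ X →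
    (((Ioc 0 X).filter (fun t => t ∈ PB j)).card : ℝ) ≤ δ * X / Real.log X := by
  have h1 := Pool.Agent.H38R2.CG3.finalEP_true (aa j) (ee j) (aa_gt j) (ee_pos j)
  obtain ⟨X1, hX1⟩ := (h1.eventually (eventually_lt_nhds (show (0 : ℝ) < δ / 4 by positivity))).exists_forall_of_atTop
  obtain ⟨X2, hX2⟩ := Pool.Agent.Y854.GM.prime_up
  obtain ⟨X3, hX3⟩ := Pool.Agent.Y854.GM.pow_small (s := 0) (K := 2) one_pos (show 0 < δ / 2 by positivity)
  refine ⟨max (max X1 X2) (max X3 3), fun X hX => ?_⟩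
  have g1 := hX1 X (((le_max_left _ _).trans (le_max_left _ _)).trans hX)
  have g2 := hX2 X (((le_max_right _ _).trans (le_max_left _ _)).trans hX)
  have g3 := hX3 X (((le_max_left _ _).trans (le_max_right _ _)).trans hX)
  have g4 : 3 ≤ X := ((le_max_right _ _).trans (le_max_right _ _)).trans hX
  rw [Real.rpow_zero, mul_one] at g3
  have hpos : (0 : ℝ) < (((Finset.Icc 2 X).filter Nat.Prime).card : ℝ) := by
    have : 2 ∈ (Finset.Icc 2 X).filter Nat.Prime := by
      rw [mem_filter, mem_Icc]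
      exact ⟨⟨le_rfl, by omega⟩, Nat.prime_two⟩
    exact_mod_cast Finset.card_pos.mpr ⟨2, this⟩
  rw [div_lt_iff₀ hpos] at g1
  have h2 : (((Finset.Icc 2 X).filter Nat.Prime).card : ℝ) ≤ (((Ioc 0 X).filter Nat.Prime).card : ℝ) := by
    have : (Finset.Icc 2 X).filter Nat.Prime ⊆ (Ioc 0 X).filter Nat.Prime := by
      apply Finset.filter_subset_filter
      intro x hx
      rw [mem_Icc] at hx
      rw [mem_Ioc]
      omega
    exact_mod_cast Finset.card_le_card this
  have h3 : (Ioc 0 X).filter (fun t => t ∈ PB j) ⊆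
      ((Finset.Icc 2 X).filter (fun p => p.Prime ∧ ¬ Pool.Agent.H38R2.CG3.GoodE (aa j) (ee j) p)) ∪ Icc 1 2 := by
    intro p hp
    rw [mem_filter, mem_Ioc] at hp
    obtain ⟨⟨h4, h5⟩, h6, h7⟩ := hp
    rw [mem_union, mem_filter, mem_Icc, mem_Icc]
    rcases h7 with h7 | h7
    · right; omega
    · left; exact ⟨⟨h6.two_le, h5⟩, h6, h7⟩
  have h4 := (Finset.card_le_card h3).trans (Finset.card_union_le _ _)
  have h5 : (Icc 1 2 : Finset ℕ).card = 2 := rfl
  rw [h5] at h4
  have h6 : (((Ioc 0 X).filter (fun t => t ∈ PB j)).card : ℝ) ≤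
      (((Finset.Icc 2 X).filter (fun p => p.Prime ∧ ¬ Pool.Agent.H38R2.CG3.GoodE (aa j) (ee j) p)).card : ℝ) + 2 := by
    exact_mod_cast h4
  have h7 : δ / 4 * (((Finset.Icc 2 X).filter Nat.Prime).card : ℝ) ≤ δ / 4 * (2 * X / Real.log X) :=
    mul_le_mul_of_nonneg_left (h2.trans g2) (by positivity)
  have h8 : δ * X / Real.log X = δ / 4 * (2 * X / Real.log X) + δ / 2 * X / Real.log X := by ring
  rw [h8]
  linarith

lemma QB_up (j : ℕ) (δ : ℝ) (hδ : 0 < δ) : ∃ X0 : ℕ, ∀ X : ℕ, X0 ≤ X →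
    (((Ioc 0 X).filter (fun t => t ∈ QB j)).card : ℝ) ≤ δ * X := by
  have h1 := Pool.Agent.H38R2.CG3.finalE_true (aa j) (ee j) (aa_gt j) (ee_pos j)
  obtain ⟨X1, hX1⟩ := (h1.eventually (eventually_lt_nhds (show (0 : ℝ) < δ / 2 by positivity))).exists_forall_of_atTop
  obtain ⟨X3, hX3⟩ := exists_nat_ge (4 / δ)
  refine ⟨max X1 (max X3 3), fun X hX => ?_⟩
  have g1 := hX1 X ((le_max_left _ _).trans hX)
  have g3 : X3 ≤ X := ((le_max_left _ _).trans (le_max_right _ _)).trans hX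
  have g4 : 3 ≤ X := ((le_max_right _ _).trans (le_max_right _ _)).trans hX
  have hXp : (0 : ℝ) < X := by
    have : 0 < X := by omega
    exact_mod_cast this
  have g5 : 4 / δ ≤ X := hX3.trans (by exact_mod_cast g3)
  rw [div_le_iff₀ hδ] at g5
  rw [div_lt_iff₀ hXp] at g1
  have h3 : (Ioc 0 X).filter (fun t => t ∈ QB j) ⊆
      ((Finset.Icc 2 X).filter (fun d => Squarefree d ∧ ¬ Pool.Agent.H38R2.CG3.GoodE (aa j) (ee j) d)) ∪ Icc 1 2 := by
    intro p hp
    rw [mem_filter, mem_Ioc] at hp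
    obtain ⟨⟨h4, h5⟩, h6, h7⟩ := hp
    rw [mem_union, mem_filter, mem_Icc, mem_Icc]
    by_cases h8 : p < 3
    · right; omega
    · rcases h7 with h7 | h7
      · exact absurd h7 h8
      · left; exact ⟨⟨by omega, h5⟩, h6, h7⟩
  have h4 := (Finset.card_le_card h3).trans (Finset.card_union_le _ _)
  have h5 : (Icc 1 2 : Finset ℕ).card = 2 := rfl
  rw [h5] at h4
  have h6 : (((Ioc 0 X).filter (fun t => t ∈ QB j)).card : ℝ) ≤
      (((Finset.Icc 2 X).filter (fun d => Squarefree d ∧ ¬ Pool.Agent.H38R2.CG3.GoodE (aa j) (ee j) d)).card : ℝ) + 2 := by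
    exact_mod_cast h4
  linarith

/-- **Theorem.** For every real `c > 1` there is a set `E` of real numbers of Hausdorff dimension less than one
such that for all `α > 0` outside `E`: (1) at least `κ N / log N` of the integers `⌊α n ^ c⌋`, `n ≤ N`, are
primes, for some `κ > 0` and all large `N`; (2) for all `a > 2` and `ε > 0` the proportion of those `n ≤ N`
with `⌊α n ^ c⌋` prime for which `⌊α n ^ c⌋` is not `Good a ε` tends to zero; (3) for all `a > 2` and `ε > 0`
the proportion of the `n ≤ N` with `⌊α n ^ c⌋` squarefree and not `Good a ε` tends to zero. -/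
theorem result : ∀ c : ℝ, 1 < c → ∃ E : Set ℝ, dimH E < 1 ∧ ∀ α : ℝ, 0 < α → α ∉ E →
    (∃ κ : ℝ, 0 < κ ∧ ∃ N₀ : ℕ, ∀ N : ℕ, N₀ ≤ N →
      κ * N / Real.log N ≤ (((Icc 1 N).filter (fun n : ℕ => (⌊α * (n : ℝ) ^ c⌋₊).Prime)).card : ℝ)) ∧
    (∀ a ε : ℝ, 2 < a → 0 < ε →
      Tendsto (fun N : ℕ =>
        (((Icc 1 N).filter (fun n : ℕ => (⌊α * (n : ℝ) ^ c⌋₊).Prime ∧ ¬ Good a ε ⌊α * (n : ℝ) ^ c⌋₊)).card : ℝ) /
          (((Icc 1 N).filter (fun n : ℕ => (⌊α * (n : ℝ) ^ c⌋₊).Prime)).card : ℝ)) atTop (𝓝 0)) ∧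
    (∀ a ε : ℝ, 2 < a → 0 < ε →
      Tendsto (fun N : ℕ =>
        (((Icc 1 N).filter (fun n : ℕ => Squarefree ⌊α * (n : ℝ) ^ c⌋₊ ∧
          ¬ Good a ε ⌊α * (n : ℝ) ^ c⌋₊)).card : ℝ) / N) atTop (𝓝 0)) := by
  intro c hc
  obtain ⟨E1, hE1, h1⟩ := Pool.Agent.Y854.GM.sets_log c hc (fun k : Option ℕ => k.elim {p : ℕ | p.Prime} PB)
  obtain ⟨E2, hE2, h2⟩ := Pool.Agent.Y854.GM.sets c hc QB
  refine ⟨E1 ∪ E2, ?_, fun α hα hαE => ?_⟩
  · rw [dimH_union]
    exact max_lt hE1 hE2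
  have hα1 : α ∉ E1 := fun h => hαE (Or.inl h)
  have hα2 : α ∉ E2 := fun h => hαE (Or.inr h)
  have hprime : ∃ κ : ℝ, 0 < κ ∧ ∃ N₀ : ℕ, ∀ N : ℕ, N₀ ≤ N →
      κ * N / Real.log N ≤ (((Icc 1 N).filter (fun n : ℕ => (⌊α * (n : ℝ) ^ c⌋₊).Prime)).card : ℝ) := by
    have hpl : ∃ X0 : ℕ, ∀ X : ℕ, X0 ≤ X → (1 / 2 : ℝ) * X / Real.log X ≤
        (((Ioc 0 X).filter (fun t => t ∈ (none : Option ℕ).elim {p : ℕ | p.Prime} PB)).card : ℝ) := by
      obtain ⟨X0, hX0⟩ := Pool.Agent.Y854.GM.prime_low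
      refine ⟨X0, fun X hX => (hX0 X hX).trans (le_of_eq ?_)⟩
      congr 2
      ext t
      simp only [mem_filter]
      exact Iff.rfl
    obtain ⟨κ, hκ, N0, h⟩ := (h1 α hα hα1 none (1 / 2)).2 (by norm_num) hpl
    refine ⟨κ, hκ, N0, fun N hN => (h N hN).trans (le_of_eq ?_)⟩
    congr 2
    ext n
    simp only [mem_filter]
    exact Iff.rfl
  refine ⟨hprime, fun a ε ha hε => ?_, fun a ε ha hε => ?_⟩
  · obtain ⟨κ, hκ, hlow⟩ := hprime
    obtain ⟨j, hja, hje⟩ := params ha hε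
    refine ratio_tendsto _ _ (fun N => Nat.cast_nonneg _) hκ hlow (fun η hη => ?_)
    obtain ⟨N0, hN0⟩ := (h1 α hα hα1 (some j) (η / 4)).1 (by positivity) (PB_up j (η / 4) (by positivity))
      (η / 2) (by positivity)
    refine ⟨N0, fun N hN => ?_⟩
    have h3 := hN0 N hN
    have h4 : 2 * (η / 4) + η / 2 = η := by ring
    rw [h4] at h3
    refine le_trans ?_ h3
    have h5 : (Icc 1 N).filter (fun n : ℕ => (⌊α * (n : ℝ) ^ c⌋₊).Prime ∧ ¬ Good a ε ⌊α * (n : ℝ) ^ c⌋₊) ⊆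
        (Icc 1 N).filter (fun n : ℕ => ⌊α * (n : ℝ) ^ c⌋₊ ∈ PB j) := by
      intro n hn
      rw [mem_filter] at hn ⊢
      refine ⟨hn.1, hn.2.1, ?_⟩
      by_contra hcon
      push Not at hcon
      exact hn.2.2 (good_of hja hje hcon.1 hcon.2)
    exact_mod_cast Finset.card_le_card h5
  · obtain ⟨j, hja, hje⟩ := params ha hε
    refine lin_tendsto _ (fun N => Nat.cast_nonneg _) (fun η hη => ?_)
    obtain ⟨N0, hN0⟩ := (h2 α hα hα2 j (η / 2) (η / 2) (by positivity)).1 (QB_up j (η / 2) (by positivity))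
    refine ⟨N0, fun N hN => ?_⟩
    have h3 := hN0 N hN
    rw [add_halves] at h3
    refine le_trans ?_ h3
    have h5 : (Icc 1 N).filter (fun n : ℕ => Squarefree ⌊α * (n : ℝ) ^ c⌋₊ ∧ ¬ Good a ε ⌊α * (n : ℝ) ^ c⌋₊) ⊆
        (Icc 1 N).filter (fun n : ℕ => ⌊α * (n : ℝ) ^ c⌋₊ ∈ QB j) := by
      intro n hn
      rw [mem_filter] at hn ⊢
      refine ⟨hn.1, hn.2.1, ?_⟩
      by_contra hcon
      push Not at hcon
      exact hn.2.2 (good_of hja hje hcon.1 hcon.2)
    exact_mod_cast Finset.card_le_card h5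

end Pool.Agent.Results.MP_321647_nt.SparseRadicands
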