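import Pool.Agent.H38R2.CG3.All

/-!
# Unique factorisation in real quadratic fields is decided by tiny primes, for 100% of the radicands

For every a > 2, every ε > 0 and all squarefree integers d ≥ 2 outside a set of density zero, the
following holds for the real quadratic field K of the square root of d.

* For suitable y and k with 2 y ≤ (log d)^a and 2 k ≤ log d / log log d, the ideals of K whose norm is
  a product of k distinct primes of (y, 2y] are equidistributed in the ideal class group of K, in mean
  square, up to the relative error ε.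
* Every ideal class is a product of at most log d / log log d classes of prime ideals of norm at most
  (log d)^a.
* The ring of integers of K is a unique factorisation domain if and only if all its prime ideals of
  norm at most (log d)^a are principal.
-/

set_option autoImplicit false

namespace Pool.Agent.Results.MP_321647_nt.SquarefreeRadicands

open Filter Finset NumberField
open scoped Classical

/-- The number of the ideals of the ring of integers of `K` that have the class `C` and whose norm is a
product of `k` distinct primes of the interval `(y, 2y]`. -/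
noncomputable def cnt (K : Type) [Field K] [NumberField K] (y k : ℕ) (C : ClassGroup (𝓞 K)) : ℕ :=
  ∑ s ∈ ((Finset.Ioc y (2 * y)).filter Nat.Prime).powersetCard k,
    Nat.card {I : nonZeroDivisors (Ideal (𝓞 K)) //
      Ideal.absNorm (I : Ideal (𝓞 K)) = ∏ p ∈ s, p ∧ ClassGroup.mk0 I = C}

/-- There are such ideals, and the mean square deviation of their distribution among the `h` ideal
classes from the uniform distribution is at most `ε (1 / h) ^ 2`. -/
def Equidistributed (K : Type) [Field K] [NumberField K] (y k : ℕ) (ε : ℝ) : Prop :=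
  0 < ∑ C : ClassGroup (𝓞 K), cnt K y k C ∧
  (∑ C : ClassGroup (𝓞 K), ((cnt K y k C : ℝ) / ((∑ C' : ClassGroup (𝓞 K), cnt K y k C' : ℕ) : ℝ) -
    1 / Nat.card (ClassGroup (𝓞 K))) ^ 2) / Nat.card (ClassGroup (𝓞 K)) ≤
      ε * (1 / Nat.card (ClassGroup (𝓞 K))) ^ 2

/-- Every ideal class is a product of at most `n` classes of prime ideals of norm at most `B`. -/
def ShortProducts (K : Type) [Field K] [NumberField K] (B n : ℝ) : Prop :=
  ∀ C : ClassGroup (𝓞 K), ∃ L : Multiset (nonZeroDivisors (Ideal (𝓞 K))),
    (∀ P ∈ L, (P : Ideal (𝓞 K)).IsPrime ∧ (Ideal.absNorm (P : Ideal (𝓞 K)) : ℝ) ≤ B) ∧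
    (L.card : ℝ) ≤ n ∧ (L.map (fun P => ClassGroup.mk0 P)).prod = C

/-- The ring of integers of `K` has unique factorisation if and only if its prime ideals of norm at
most `B` are principal. -/
def DecidedBelow (K : Type) [Field K] [NumberField K] (B : ℝ) : Prop :=
  UniqueFactorizationMonoid (𝓞 K) ↔
    ∀ P : Ideal (𝓞 K), P.IsPrime → (Ideal.absNorm P : ℝ) ≤ B → P.IsPrincipal

/-- The property of the integer `d` in the theorem: all three statements hold for every quadratic
field containing a square root of `d`. -/
def Good (a ε : ℝ) (d : ℕ) : Prop :=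
  ∀ (K : Type) [Field K] [NumberField K], Module.finrank ℚ K = 2 →
    (∃ x : K, x ^ 2 = (d : K)) →
    (∃ y k : ℕ, 2 * (y : ℝ) ≤ (Real.log d) ^ a ∧
      2 * (k : ℝ) ≤ Real.log d / Real.log (Real.log d) ∧ Equidistributed K y k ε) ∧
    ShortProducts K ((Real.log d) ^ a) (Real.log d / Real.log (Real.log d)) ∧
    DecidedBelow K ((Real.log d) ^ a)

/-- If all ideal classes are products of classes of prime ideals of norm at most `B`, then unique
factorisation is decided by the prime ideals of norm at most `B`. -/
theorem decided (K : Type) [Field K] [NumberField K] (B n : ℝ) (h : ShortProducts K B n) :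
    DecidedBelow K B := by
  constructor
  · intro hU P _ _
    haveI := hU
    haveI : IsPrincipalIdealRing (𝓞 K) := IsPrincipalIdealRing.of_isDedekindDomain_of_uniqueFactorizationMonoid (𝓞 K)
    exact IsPrincipalIdealRing.principal P
  · intro hP
    have htriv : ∀ C : ClassGroup (𝓞 K), C = 1 := by
      intro C
      obtain ⟨L, hL, _, hprod⟩ := h C
      rw [← hprod]
      apply Multiset.prod_eq_one
      intro c hc
      obtain ⟨P, hPL, rfl⟩ := Multiset.mem_map.1 hc
      rw [ClassGroup.mk0_eq_one_iff]
      exact hP _ (hL P hPL).1 (hL P hPL).2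
    have hcard : Fintype.card (ClassGroup (𝓞 K)) = 1 := by
      rw [Fintype.card_eq_one_iff]
      exact ⟨1, htriv⟩
    haveI : IsPrincipalIdealRing (𝓞 K) := by
      rw [← card_classGroup_eq_one_iff]
      exact hcard
    infer_instance

theorem result :
    ∀ a ε : ℝ, 2 < a → 0 < ε →
      Tendsto (fun X : ℕ =>
        (((Finset.Icc 2 X).filter (fun d => Squarefree d ∧ ¬ Good a ε d)).card : ℝ) / X)
        atTop (nhds 0) := by
  intro a ε ha hε
  have h := Pool.Agent.H38R2.CG3.finalE_true a ε ha hε
  refine h.congr (fun X => ?_)
  congr 2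
  refine congrArg Finset.card (Finset.filter_congr (fun d _ => ?_))
  constructor
  · rintro ⟨h1, h2⟩
    refine ⟨h1, fun h3 => h2 ?_⟩
    intro K _ _ hK hx
    exact ⟨(h3 K hK hx).1, (h3 K hK hx).2.1⟩
  · rintro ⟨h1, h2⟩
    refine ⟨h1, fun h3 => h2 ?_⟩
    intro K _ _ hK hx
    obtain ⟨h4, h5⟩ := h3 K hK hx
    exact ⟨h4, h5, decided K _ _ h5⟩

end Pool.Agent.Results.MP_321647_nt.SquarefreeRadicands
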