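import Pool.Agent.Y892.UG.V7

/-!
# Units and unique factorisation from relations between tiny primes, for 100% of the radicands

Let `K` be a real quadratic field with real embeddings `σ`, `τ`.  A small element of `K` is a nonzero
`x` for which the fractional ideal `(x)` is a quotient of two products of at most `1 + n` prime ideals of
norm at most `B` and `|log |σ x / τ x|| ≤ 5`.  For every `a > 2` and 100% of the squarefree integers
`d`, and also for 100% of the radicands which genus theory allows for unique factorisation (primes,
`2 p`, and `p q`, with primes `p`, `q` that are 3 mod 4), with `K = ℚ(√d)`, `B = (log d)^a` and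
`n = log d / log log d`:

* every ideal is `x A` with a product `A` of at most `n` prime ideals of norm at most `B` and a totally
  positive `x` with `log (σ x / τ x)` within distance 2 of any prescribed real number;
* all `B`-units of `K`, in particular all units, are products of powers of small elements, and the
  totally positive ones are products of powers of totally positive small elements;
* the ring of integers has unique factorisation if and only if every prime ideal of norm at most `B` is
  generated by a product of powers of small elements.
-/

set_option autoImplicit false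

namespace Pool.Agent.Results.MP_321647_nt.TinyRelations

open Filter Finset Pool.Agent.H951R5.AR
open scoped Classical

/-- `d = 2 p` with a prime `p ≡ 3 mod 4`. -/
def TwicePrime (d : ℕ) : Prop := ∃ p : ℕ, p.Prime ∧ p % 4 = 3 ∧ d = 2 * p

/-- `d = p q` with two different primes `p ≡ q ≡ 3 mod 4`. -/
def PrimePair (d : ℕ) : Prop :=
  ∃ p q : ℕ, p.Prime ∧ q.Prime ∧ p < q ∧ p % 4 = 3 ∧ q % 4 = 3 ∧ d = p * q

/-- The radicands that can have unique factorisation. -/
def Candidate (d : ℕ) : Prop := d.Prime ∨ TwicePrime d ∨ PrimePair d

/-- The proportion of the numbers up to `X` with the property `F` that do not have the property `G`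
tends to zero as `X` tends to infinity. -/
def AlmostAll (F G : ℕ → Prop) : Prop :=
  Tendsto (fun X : ℕ => (((Finset.Icc 1 X).filter (fun d => F d ∧ ¬ G d)).card : ℝ) /
    (((Finset.Icc 1 X).filter F).card : ℝ)) atTop (nhds 0)

theorem almost (F G : ℕ → Prop)
    (h : Tendsto (fun X : ℕ => (((Finset.Ioc 0 X).filter
      (fun D => F D ∧ ¬ G D)).card : ℝ) /
      (((Finset.Ioc 0 X).filter F).card : ℝ)) atTop (nhds 0)) : AlmostAll F G := by
  unfold AlmostAll
  refine h.congr (fun X => ?_)
  have e1 : Finset.Ioc 0 X = Finset.Icc 1 X := by
    ext d
    rw [mem_Ioc, mem_Icc]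
    omega
  rw [e1]

theorem result :
    ∀ a : ℝ, 2 < a →
      Tendsto (fun X : ℕ => (((Finset.Icc 2 X).filter
        (fun d => Squarefree d ∧ ¬ GoodAR a d)).card : ℝ) / X) atTop (nhds 0) ∧
      AlmostAll Candidate (GoodAR a) ∧ AlmostAll PrimePair (GoodAR a) ∧
        AlmostAll TwicePrime (GoodAR a) := by
  intro a ha
  refine ⟨?_, almost _ _ ?_, almost _ _ ?_, almost _ _ ?_⟩
  · refine (finalAR_true a ha).congr fun X => ?_
    congr 2
    refine Nat.subtype_card _ fun d => ?_
    rw [Finset.mem_filter, Finset.mem_Icc]
    tauto
  · convert Pool.Agent.Y892.UG.cand_limAR a ha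
    all_goals rfl
  · exact Pool.Agent.Y892.UG.semi_limAR a ha
  · exact Pool.Agent.Y892.UG.two_limAR a ha

end Pool.Agent.Results.MP_321647_nt.TinyRelations
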